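import Pool.Agent.LibDC29.Main

/-!
Leavitt path algebras over the complex numbers, with their involution.  For countable graphs
(infinitely many vertices, sinks and infinite emitters allowed) such that different cycles of one of
them are disjoint (cycles may have exits), isomorphic as rings implies isomorphic as `*`-algebras.
-/

namespace Pool.Agent.Results.MP_1b7a44_al.DisjointCyclesIso

open LPA74

/-- Let `E` and `F` be countable graphs and suppose that different cycles of `E` are disjoint
(`DisjointCycles E`: of the edges out of a vertex at most one has a path back from its range to its
source; cycles may have exits, vertices may emit infinitely many edges).  If the complex Leavitt path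
algebras `LA E` and `LA F` are isomorphic as rings, then they are isomorphic as `*`-algebras. -/
theorem result (E F : Gph) [Countable E.V] [Countable E.Ed] [Countable F.V] [Countable F.Ed]
    (hE : DC29.DisjointCycles E) (h : Nonempty (LA E ≃+* LA F)) :
    Nonempty (LA E ≃⋆ₐ[ℂ] LA F) := by
  obtain ⟨θ⟩ := h
  exact DC29.main hE θ

end Pool.Agent.Results.MP_1b7a44_al.DisjointCyclesIso
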